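import Mathlib
import Pool.Agent.H79.Tet.Wat3

/-!
# Eight tetrahedral numbers in expected polynomial time, unconditionally

There is a randomized algorithm that writes every positive integer `n`, given in binary, as a sum of
at most eight tetrahedral numbers.  Its output is always correct, and its expected running time is
bounded by a polynomial in the binary length of `n`.  No hypothesis is used.

The model of computation is defined in `Pool.Agent.H7.Comp.Model`: while-programs over binary trees
(the language `WHILE` of N. D. Jones), every elementary operation costing one unit of time.
`Run p x y t` says that the program `p`, started on the tree `x`, halts with the result `y` after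
`t` units of time.  The input is the pair of the list of binary digits of `n` and of a string `ρ` of
random bits; the output is the list of the lists of binary digits of the numbers `m` of the
representation `n = ∑ T(m)`.

Idea of the algorithm.  With a suitable odd `t = 5 ^ j` and suitable `x`, `y` found by Hensel lifting,
`n = P(x) + P(y) + (t ^ 3 - 4 t) / 8 + t M / 8`, `P(x) = (x ^ 3 - x) / 6`, `M ≡ 3` modulo 8,
`0 < M ≤ t ^ 2`; three squares for `M` then give six further tetrahedral numbers.  Three squares
for `M` come from an odd `Q ≡ -1/2` modulo `M` and a square root of `-M` modulo `Q`, by reduction of a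
ternary form.  The number `Q` is found as a product of polylogarithmically many random factors, whose
product performs a rapidly mixing random walk on the kernel of the Jacobi symbol modulo `M`, times
one more random factor.  The walk mixes for every `M` that is not exceptional, and of two numbers
`M₁`, `M₂` with `(· / M₁ M₂)` nonprincipal at most one is exceptional.
-/

namespace Pool.Agent.Results.MP_efac2b_lc.LasVegasTetrahedral

open Pool.Agent.H7.Comp

/-- A program `p` and constants `a`, `c` such that for every positive integer `n` and every string
`ρ` of `(|n| + 2) ^ a` bits, `|n|` being the binary length of `n`, the program halts with a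
representation of `n` by at most eight tetrahedral numbers, and the average of its running times
`τ ρ` over all strings `ρ` is at most `(|n| + 2) ^ c`. -/
theorem result : ∃ (p : Prog) (a c : ℕ), ∀ n : ℕ, 0 < n →
    ∃ τ : (Fin ((Nat.size n + 2) ^ a) → Bool) → ℕ,
      (∀ ρ : Fin ((Nat.size n + 2) ^ a) → Bool, ∃ l : List ℕ,
        (1 ≤ l.length ∧ l.length ≤ 8 ∧ (∀ m ∈ l, 1 ≤ m) ∧
          (l.map (fun m => m * (m + 1) * (m + 2) / 6)).sum = n) ∧
        Run p (enc (Nat.bits n, List.ofFn ρ)) (enc (l.map Nat.bits)) (τ ρ)) ∧
      ∑ ρ : Fin ((Nat.size n + 2) ^ a) → Bool, τ ρ ≤
        2 ^ ((Nat.size n + 2) ^ a) * (Nat.size n + 2) ^ c := by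
  obtain ⟨p, a, c, h⟩ := H79.Tet.main_rep
  exact ⟨p, a, c, fun n hn => h n hn (H79.Tet.watson hn)⟩

end Pool.Agent.Results.MP_efac2b_lc.LasVegasTetrahedral
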